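import Mathlib

/-!
Conic bundles `z ^ 2 = a(x) u ^ 2 + b(x) u + c(x)`: restriction to the moving lines
`x + t (v + u w)`, first order expansions, clearing denominators.
-/

namespace Pool.Agent.Work.PDCB

open MvPolynomial

section along

variable {k S : Type*} [CommRing k] [CommRing S] [Algebra k S] {n : ℕ}

/-- The line `x + t (v + u w)`: `t` is the outer variable, `u` the inner one. -/
noncomputable def mline (x v w : Fin n → S) : Fin n → Polynomial (Polynomial S) := fun i =>
  Polynomial.C (Polynomial.C (x i)) +
    Polynomial.X * (Polynomial.C (Polynomial.C (v i)) +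
      Polynomial.C Polynomial.X * Polynomial.C (Polynomial.C (w i)))

/-- `p(x + t (v + u w))`. -/
noncomputable def along (p : MvPolynomial (Fin n) k) (x v w : Fin n → S) :
    Polynomial (Polynomial S) := aeval (mline x v w) p

/-- derivative of `p` at `x` in the direction `v` -/
noncomputable def dird (p : MvPolynomial (Fin n) k) (x v : Fin n → S) : S :=
  ∑ i, v i * aeval x (pderiv i p)

omit [Algebra k S] in
theorem coeff_zero_mline (x v w : Fin n → S) (i : Fin n) :
    (mline x v w i).coeff 0 = Polynomial.C (x i) := by
  simp [mline]

omit [Algebra k S] in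
theorem coeff_one_mline (x v w : Fin n → S) (i : Fin n) :
    (mline x v w i).coeff 1 = Polynomial.C (v i) + Polynomial.X * Polynomial.C (w i) := by
  simp [mline, Polynomial.coeff_C]

theorem along_coeff_zero (p : MvPolynomial (Fin n) k) (x v w : Fin n → S) :
    (along p x v w).coeff 0 = Polynomial.C (aeval x p) := by
  unfold along
  induction p using MvPolynomial.induction_on with
  | C r =>
    simp [Polynomial.algebraMap_apply, Polynomial.coeff_C]
  | add p q hp hq => simp [hp, hq]
  | mul_X p i hp =>
    rw [map_mul, aeval_X, Polynomial.mul_coeff_zero, hp, coeff_zero_mline]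
    simp

theorem along_coeff_one (p : MvPolynomial (Fin n) k) (x v w : Fin n → S) :
    (along p x v w).coeff 1 =
      Polynomial.C (dird p x v) + Polynomial.X * Polynomial.C (dird p x w) := by
  classical
  induction p using MvPolynomial.induction_on with
  | C r =>
    simp [along, dird, Polynomial.algebraMap_apply]
  | add p q hp hq =>
    have h1 : along (p + q) x v w = along p x v w + along q x v w := by simp [along]
    rw [h1, Polynomial.coeff_add, hp, hq]
    simp only [dird, map_add, mul_add, Finset.sum_add_distrib]
    ring
  | mul_X p i hp =>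
    have h1 : along (p * X i) x v w = along p x v w * mline x v w i := by simp [along]
    have hs : ∀ y : Fin n → S, dird (p * X i) x y = dird p x y * x i + aeval x p * y i := by
      intro y
      simp only [dird, pderiv_mul, map_add, map_mul, aeval_X, pderiv_X, mul_add,
        Finset.sum_add_distrib]
      congr 1
      · rw [Finset.sum_mul]
        exact Finset.sum_congr rfl fun j _ => by ring
      · rw [Finset.sum_eq_single i]
        · simp; ring
        · intro j _ hj
          simp [Ne.symm hj]
        · simp
    rw [h1, Polynomial.mul_coeff_one, along_coeff_zero, hp, coeff_zero_mline,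
      coeff_one_mline, hs v, hs w]
    simp only [Polynomial.C_add, Polynomial.C_mul]
    ring

/-- evaluating the restricted polynomial -/
theorem along_eval (p : MvPolynomial (Fin n) k) (x v w : Fin n → S) (u t : S) :
    ((along p x v w).map (Polynomial.evalRingHom u)).eval t =
      aeval (fun i => x i + t * (v i + u * w i)) p := by
  unfold along
  induction p using MvPolynomial.induction_on with
  | C r => simp [Polynomial.algebraMap_apply]
  | add p q hp hq => simp only [map_add, Polynomial.map_add, Polynomial.eval_add, hp, hq]
  | mul_X p i hp =>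
    rw [map_mul, map_mul, Polynomial.map_mul, Polynomial.eval_mul, hp, aeval_X, aeval_X]
    congr 1
    simp [mline]

/-- base change of the restricted polynomial -/
theorem along_map {T : Type*} [CommRing T] [Algebra k T] (φ : S →ₐ[k] T)
    (p : MvPolynomial (Fin n) k) (x v w : Fin n → S) :
    (along p x v w).map (Polynomial.mapRingHom φ.toRingHom) =
      along p (fun i => φ (x i)) (fun i => φ (v i)) (fun i => φ (w i)) := by
  unfold along
  induction p using MvPolynomial.induction_on with
  | C r => simp [Polynomial.algebraMap_apply]
  | add p q hp hq => simp only [map_add, Polynomial.map_add, hp, hq]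
  | mul_X p i hp =>
    rw [map_mul, map_mul, Polynomial.map_mul, hp, aeval_X, aeval_X]
    congr 1
    simp [mline]

/-- The restriction of `a u ^ 2 + b u + c` to the moving line. -/
noncomputable def restr (a b c : MvPolynomial (Fin n) k) (x v w : Fin n → S) :
    Polynomial (Polynomial S) :=
  along a x v w * Polynomial.C (Polynomial.X ^ 2) + along b x v w * Polynomial.C Polynomial.X +
    along c x v w

theorem restr_eval (a b c : MvPolynomial (Fin n) k) (x v w : Fin n → S) (u t : S) :
    ((restr a b c x v w).map (Polynomial.evalRingHom u)).eval t =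
      aeval (fun i => x i + t * (v i + u * w i)) a * u ^ 2 +
      aeval (fun i => x i + t * (v i + u * w i)) b * u +
      aeval (fun i => x i + t * (v i + u * w i)) c := by
  unfold restr
  rw [Polynomial.map_add, Polynomial.map_add, Polynomial.map_mul, Polynomial.map_mul,
    Polynomial.eval_add, Polynomial.eval_add, Polynomial.eval_mul, Polynomial.eval_mul,
    along_eval, along_eval, along_eval]
  simp

theorem restr_coeff_zero (a b c : MvPolynomial (Fin n) k) (x v w : Fin n → S) :
    (restr a b c x v w).coeff 0 = Polynomial.C (aeval x a) * Polynomial.X ^ 2 +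
      Polynomial.C (aeval x b) * Polynomial.X + Polynomial.C (aeval x c) := by
  unfold restr
  simp only [Polynomial.coeff_add, Polynomial.coeff_mul_C, along_coeff_zero]

theorem restr_coeff_one (a b c : MvPolynomial (Fin n) k) (x v w : Fin n → S) :
    (restr a b c x v w).coeff 1 =
      Polynomial.C (dird a x w) * Polynomial.X ^ 3 +
      Polynomial.C (dird a x v + dird b x w) * Polynomial.X ^ 2 +
      Polynomial.C (dird b x v + dird c x w) * Polynomial.X + Polynomial.C (dird c x v) := by
  unfold restr
  simp only [Polynomial.coeff_add, Polynomial.coeff_mul_C, along_coeff_one, Polynomial.C_add]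
  ring

theorem restr_map {T : Type*} [CommRing T] [Algebra k T] (φ : S →ₐ[k] T)
    (a b c : MvPolynomial (Fin n) k) (x v w : Fin n → S) :
    (restr a b c x v w).map (Polynomial.mapRingHom φ.toRingHom) =
      restr a b c (fun i => φ (x i)) (fun i => φ (v i)) (fun i => φ (w i)) := by
  unfold restr
  simp only [Polynomial.map_add, Polynomial.map_mul, along_map]
  simp

end along

section clear

variable {K : Type*} [Field K]

/-- `M ^ D P(N / M)` -/
noncomputable def clr (P : Polynomial (Polynomial K)) (N M : Polynomial K) (D : ℕ) :
    Polynomial K := ∑ i ∈ Finset.range (D + 1), P.coeff i * N ^ i * M ^ (D - i)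

theorem clr_eval (P : Polynomial (Polynomial K)) (N M : Polynomial K) (D : ℕ)
    (hD : P.natDegree ≤ D) (u : K) (hM : M.eval u ≠ 0) :
    (clr P N M D).eval u = (M.eval u) ^ D *
      (P.map (Polynomial.evalRingHom u)).eval (N.eval u / M.eval u) := by
  have h1 : (P.map (Polynomial.evalRingHom u)).natDegree < D + 1 :=
    Nat.lt_succ_of_le (Polynomial.natDegree_map_le.trans hD)
  rw [Polynomial.eval_eq_sum_range' h1, clr, Polynomial.eval_finsetSum, Finset.mul_sum]
  refine Finset.sum_congr rfl fun i hi => ?_
  have hi' : i ≤ D := Nat.lt_succ_iff.mp (Finset.mem_range.mp hi)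
  rw [Polynomial.eval_mul, Polynomial.eval_mul, Polynomial.eval_pow, Polynomial.eval_pow,
    Polynomial.coeff_map, Polynomial.coe_evalRingHom, div_pow]
  have h2 : (M.eval u) ^ D = (M.eval u) ^ (D - i) * (M.eval u) ^ i := by
    rw [← pow_add, Nat.sub_add_cancel hi']
  rw [h2]
  field_simp

theorem clr_zero (P : Polynomial (Polynomial K)) (N M : Polynomial K) (D : ℕ) :
    N ∣ clr P N M D - P.coeff 0 * M ^ D := by
  rw [clr, Finset.sum_range_succ']
  simp only [pow_zero, mul_one, Nat.sub_zero, add_sub_cancel_right]
  refine Finset.dvd_sum fun i _ => ?_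
  exact Dvd.dvd.mul_right (Dvd.dvd.mul_left (dvd_pow_self _ (Nat.succ_ne_zero _)) _) _

theorem clr_one (P : Polynomial (Polynomial K)) (N M : Polynomial K) (D : ℕ) (hN : N ≠ 0)
    (h0 : P.coeff 0 = 0) (h : clr P N M (D + 1) = 0) : N ∣ P.coeff 1 * M ^ D := by
  rw [clr, Finset.sum_range_succ', Finset.sum_range_succ'] at h
  simp only [pow_zero, mul_one, Nat.sub_zero, h0, zero_mul, add_zero, zero_add,
    pow_one, Nat.add_sub_cancel] at h
  have h2 : N * ((∑ i ∈ Finset.range D, P.coeff (i + 1 + 1) * N ^ (i + 1) *
      M ^ (D + 1 - (i + 1 + 1))) + P.coeff 1 * M ^ D) = 0 := by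
    rw [← h, mul_add, Finset.mul_sum]
    congr 1
    · exact Finset.sum_congr rfl fun i _ => by ring
    · ring
  rcases mul_eq_zero.mp h2 with h3 | h3
  · exact absurd h3 hN
  · have h4 : P.coeff 1 * M ^ D = -(∑ i ∈ Finset.range D, P.coeff (i + 1 + 1) * N ^ (i + 1) *
      M ^ (D + 1 - (i + 1 + 1))) := by
      rw [← sub_eq_zero, sub_neg_eq_add, add_comm]; exact h3
    rw [h4, dvd_neg]
    refine Finset.dvd_sum fun i _ => ?_
    exact Dvd.dvd.mul_right (Dvd.dvd.mul_left (dvd_pow_self _ (Nat.succ_ne_zero _)) _) _

end clear

end Pool.Agent.Work.PDCB
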