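import Mathlib
import Pool.Agent.Work.MP_b62148_ag.CB.Basic

/-!
The residual map `Q ↦ 3 Q - h` on `w^2 = f_0 + f_1 t + ... + f_4 t^4`, conics with a point,
a resultant.
-/

namespace Pool.Agent.Work.PDCB

open MvPolynomial

section

variable {K : Type*} [Field K]

/-- the value at `t = N / M` is a square -/
theorem residual_square (h2 : (2 : K) ≠ 0) {f0 f1 f2 f3 f4 z : K} (hz : z ^ 2 = f0)
    (hz0 : f0 ≠ 0) (hM : 64 * f0 ^ 3 * f4 - (4 * f0 * f2 - f1 ^ 2) ^ 2 ≠ 0) {t : K}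
    (ht : t = (-8 * f0 * (8 * f0 ^ 2 * f3 - 4 * f0 * f1 * f2 + f1 ^ 3)) /
      (64 * f0 ^ 3 * f4 - (4 * f0 * f2 - f1 ^ 2) ^ 2)) :
    ∃ r : K, r ^ 2 = f0 + f1 * t + f2 * t ^ 2 + f3 * t ^ 3 + f4 * t ^ 4 := by
  have hz1 : z ≠ 0 := by
    rintro rfl
    apply hz0
    rw [← hz]; simp
  subst hz
  obtain ⟨β, hβ⟩ : ∃ β, β * (2 * z) = f1 := ⟨f1 / (2 * z), div_mul_cancel₀ _
    (mul_ne_zero h2 hz1)⟩
  have h8 : (8 : K) * z ^ 3 ≠ 0 := by
    have : (8 : K) = 2 ^ 3 := by norm_num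
    rw [this]
    exact mul_ne_zero (pow_ne_zero _ h2) (pow_ne_zero _ hz1)
  obtain ⟨γ, hγ⟩ : ∃ γ, γ * (8 * z ^ 3) = 4 * z ^ 2 * f2 - f1 ^ 2 :=
    ⟨(4 * z ^ 2 * f2 - f1 ^ 2) / (8 * z ^ 3), div_mul_cancel₀ _ h8⟩
  refine ⟨z + β * t + γ * t ^ 2, ?_⟩
  have e1 : 64 * (z ^ 2) ^ 3 * f4 - (4 * z ^ 2 * f2 - f1 ^ 2) ^ 2 =
      64 * z ^ 6 * (f4 - γ ^ 2) := by
    rw [← hγ]; ring
  have e2 : -8 * z ^ 2 * (8 * (z ^ 2) ^ 2 * f3 - 4 * z ^ 2 * f1 * f2 + f1 ^ 3) =
      64 * z ^ 6 * (-(f3 - 2 * β * γ)) := by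
    have : 8 * (z ^ 2) ^ 2 * f3 - 4 * z ^ 2 * f1 * f2 + f1 ^ 3 =
      8 * z ^ 4 * f3 - f1 * (4 * z ^ 2 * f2 - f1 ^ 2) := by ring
    rw [this, ← hγ]
    linear_combination (-64 * z ^ 5 * γ) * hβ
  rw [e1] at hM
  have h64 : (64 : K) * z ^ 6 ≠ 0 := left_ne_zero_of_mul hM
  have hne : f4 - γ ^ 2 ≠ 0 := right_ne_zero_of_mul hM
  have ht' : t * (f4 - γ ^ 2) = -(f3 - 2 * β * γ) := by
    rw [ht, e1, e2, mul_div_mul_left _ _ h64, div_mul_cancel₀ _ hne]
  have hf2 : β ^ 2 + 2 * z * γ = f2 := by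
    have h4 : (4 : K) * z ^ 2 ≠ 0 := by
      have : (4 : K) = 2 ^ 2 := by norm_num
      rw [this]
      exact mul_ne_zero (pow_ne_zero _ h2) (pow_ne_zero _ hz1)
    apply mul_left_cancel₀ h4
    linear_combination hγ + (β * (2 * z) + f1) * hβ
  linear_combination t * hβ + t ^ 2 * hf2 - t ^ 3 * ht'

/-- a smooth conic `z^2 = A u^2 + B u + C` with a point has infinitely many values of `u` -/
theorem conic_infinite [CharZero K] {A B C : K} (hd : B ^ 2 - 4 * A * C ≠ 0)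
    {u₀ z₀ : K} (h0 : z₀ ^ 2 = A * u₀ ^ 2 + B * u₀ + C) :
    {u : K | ∃ z, z ^ 2 = A * u ^ 2 + B * u + C}.Infinite := by
  classical
  have hinfK : Infinite K := Infinite.of_injective (Nat.cast : ℕ → K) Nat.cast_injective
  intro hfin
  -- pairs
  have hpairs : {p : K × K | p.2 ^ 2 = A * p.1 ^ 2 + B * p.1 + C}.Finite := by
    have hsub : {p : K × K | p.2 ^ 2 = A * p.1 ^ 2 + B * p.1 + C} ⊆
        ⋃ u ∈ {u : K | ∃ z, z ^ 2 = A * u ^ 2 + B * u + C},
          (fun z => (u, z)) '' {z : K | z ^ 2 = A * u ^ 2 + B * u + C} := by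
      rintro ⟨u, z⟩ h
      simp only [Set.mem_iUnion]
      exact ⟨u, ⟨z, h⟩, z, h, rfl⟩
    refine Set.Finite.subset (Set.Finite.biUnion hfin fun u hu => Set.Finite.image _ ?_) hsub
    obtain ⟨z, hz⟩ := hu
    refine Set.Finite.subset (Set.toFinite {z, -z}) fun y hy => ?_
    have : (y - z) * (y + z) = 0 := by
      have hy' : y ^ 2 = A * u ^ 2 + B * u + C := hy
      linear_combination hy' - hz
    rcases mul_eq_zero.mp this with h | h
    · left; linear_combination h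
    · right
      simp only [Set.mem_singleton_iff]
      linear_combination h
  -- parameters
  let E : Set K := {μ | μ ^ 2 = A} ∪ {μ | 2 * A * u₀ + B - 2 * μ * z₀ = 0}
  have hE : E.Finite := by
    refine Set.Finite.union ?_ ?_
    · by_cases h : ∃ r : K, r ^ 2 = A
      · obtain ⟨r, hr⟩ := h
        refine Set.Finite.subset (Set.toFinite {r, -r}) fun y hy => ?_
        have : (y - r) * (y + r) = 0 := by
          have hy' : y ^ 2 = A := hy
          linear_combination hy' - hr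
        rcases mul_eq_zero.mp this with h | h
        · left; linear_combination h
        · right
          simp only [Set.mem_singleton_iff]
          linear_combination h
      · convert Set.finite_empty (α := K)
        ext y
        simp only [Set.mem_ofPred_eq, Set.mem_empty_iff_false, iff_false]
        exact fun hy => h ⟨y, hy⟩
    · by_cases hz : z₀ = 0
      · convert Set.finite_empty (α := K)
        ext y
        simp only [Set.mem_ofPred_eq, Set.mem_empty_iff_false, iff_false, hz, mul_zero, sub_zero]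
        intro hy
        apply hd
        rw [hz] at h0
        have h0' : A * u₀ ^ 2 + B * u₀ + C = 0 := by rw [← h0]; ring
        linear_combination (-4 * A) * h0' + (2 * A * u₀ + B) * hy
      · refine Set.Finite.subset (Set.finite_singleton ((2 * A * u₀ + B) / (2 * z₀)))
          fun y hy => ?_
        have hy' : 2 * A * u₀ + B - 2 * y * z₀ = 0 := hy
        rw [Set.mem_singleton_iff, eq_div_iff (mul_ne_zero two_ne_zero hz)]
        linear_combination -hy'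
  have hEc : (Eᶜ).Infinite := hE.infinite_compl
  apply hEc
  let f : K → K × K := fun μ =>
    (u₀ + (2 * A * u₀ + B - 2 * μ * z₀) / (μ ^ 2 - A),
      z₀ + μ * ((2 * A * u₀ + B - 2 * μ * z₀) / (μ ^ 2 - A)))
  refine Set.Finite.of_finite_image (f := f) (hpairs.subset ?_) ?_
  · rintro _ ⟨μ, hμ, rfl⟩
    have h1 : μ ^ 2 - A ≠ 0 := fun h => hμ (Or.inl (sub_eq_zero.mp h))
    obtain ⟨e, he⟩ : ∃ e, e * (μ ^ 2 - A) = 2 * A * u₀ + B - 2 * μ * z₀ :=
      ⟨_, div_mul_cancel₀ _ h1⟩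
    have he' : (2 * A * u₀ + B - 2 * μ * z₀) / (μ ^ 2 - A) = e := by
      rw [← he, mul_div_cancel_right₀ _ h1]
    show (z₀ + μ * ((2 * A * u₀ + B - 2 * μ * z₀) / (μ ^ 2 - A))) ^ 2 =
      A * (u₀ + (2 * A * u₀ + B - 2 * μ * z₀) / (μ ^ 2 - A)) ^ 2 +
      B * (u₀ + (2 * A * u₀ + B - 2 * μ * z₀) / (μ ^ 2 - A)) + C
    rw [he']
    linear_combination h0 + e * he
  · intro μ hμ ν hν hfμν
    have h1 : μ ^ 2 - A ≠ 0 := fun h => hμ (Or.inl (sub_eq_zero.mp h))
    have h1' : 2 * A * u₀ + B - 2 * μ * z₀ ≠ 0 := fun h => hμ (Or.inr h)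
    have h2 := congrArg Prod.fst hfμν
    have h3 := congrArg Prod.snd hfμν
    simp only [f, add_right_inj] at h2 h3
    rw [← h2] at h3
    have h4 : (2 * A * u₀ + B - 2 * μ * z₀) / (μ ^ 2 - A) ≠ 0 := div_ne_zero h1' h1
    exact mul_right_cancel₀ h4 h3


end

end Pool.Agent.Work.PDCB
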