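import Mathlib

/-!
Resultant of a quadratic and a cubic polynomial, by hand.
-/

namespace Pool.Agent.Work.PDCB

open Polynomial

variable {R : Type*} [CommRing R]

/-- the reduction of `A ^ 2 (g3 X^3 + g2 X^2 + g1 X + g0)` modulo `A X^2 + B X + C` -/
def red1 (A B C g1 g2 g3 : R) : R := A ^ 2 * g1 - A * B * g2 + (B ^ 2 - A * C) * g3

def red0 (A B C g0 g2 g3 : R) : R := A ^ 2 * g0 - A * C * g2 + B * C * g3

/-- its norm -/
def resu (A B C g0 g1 g2 g3 : R) : R :=
  A * red0 A B C g0 g2 g3 ^ 2 - B * red0 A B C g0 g2 g3 * red1 A B C g1 g2 g3 +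
    C * red1 A B C g1 g2 g3 ^ 2

variable {K : Type*} [Field K]

theorem quad_natDegree {A B C : K} (hA : A ≠ 0) :
    (Polynomial.C A * X ^ 2 + Polynomial.C B * X + Polynomial.C C).natDegree = 2 :=
  natDegree_quadratic hA

theorem coprime_of_resu {A B C g0 g1 g2 g3 : K} (h : resu A B C g0 g1 g2 g3 ≠ 0) :
    IsCoprime (Polynomial.C A * X ^ 2 + Polynomial.C B * X + Polynomial.C C)
      (Polynomial.C g3 * X ^ 3 + Polynomial.C g2 * X ^ 2 + Polynomial.C g1 * X +
        Polynomial.C g0) := by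
  set R1 := red1 A B C g1 g2 g3 with hR1
  set R0 := red0 A B C g0 g2 g3 with hR0
  set f0 : K[X] := Polynomial.C A * X ^ 2 + Polynomial.C B * X + Polynomial.C C with hf0
  set f1 : K[X] := Polynomial.C g3 * X ^ 3 + Polynomial.C g2 * X ^ 2 + Polynomial.C g1 * X +
        Polynomial.C g0 with hf1
  set q : K[X] := Polynomial.C A * Polynomial.C g3 * X + (Polynomial.C A * Polynomial.C g2 -
    Polynomial.C B * Polynomial.C g3) with hq
  set e : K[X] := Polynomial.C A * Polynomial.C R0 - Polynomial.C B * Polynomial.C R1 -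
    Polynomial.C A * Polynomial.C R1 * X with he
  have h1 : Polynomial.C A ^ 2 * f1 = f0 * q + (Polynomial.C R1 * X + Polynomial.C R0) := by
    rw [hf1, hf0, hq, hR1, hR0]
    simp only [red1, red0, C_add, C_sub, C_mul, C_pow]
    ring
  have h2 : (Polynomial.C R1 * X + Polynomial.C R0) * e + Polynomial.C R1 ^ 2 * f0 =
      Polynomial.C (resu A B C g0 g1 g2 g3) := by
    have : resu A B C g0 g1 g2 g3 = A * R0 ^ 2 - B * R0 * R1 + C * R1 ^ 2 := rfl
    rw [this, hf0, he]
    simp only [C_add, C_sub, C_mul, C_pow]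
    ring
  refine ⟨Polynomial.C (resu A B C g0 g1 g2 g3)⁻¹ * (Polynomial.C R1 ^ 2 - q * e),
    Polynomial.C (resu A B C g0 g1 g2 g3)⁻¹ * (Polynomial.C A ^ 2 * e), ?_⟩
  have h3 : (Polynomial.C R1 ^ 2 - q * e) * f0 + (Polynomial.C A ^ 2 * e) * f1 =
      Polynomial.C (resu A B C g0 g1 g2 g3) := by
    rw [← h2]
    linear_combination e * h1
  have h4 : Polynomial.C (resu A B C g0 g1 g2 g3)⁻¹ *
      Polynomial.C (resu A B C g0 g1 g2 g3) = 1 := by
    rw [← C_mul, inv_mul_cancel₀ h, C_1]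
  rw [← h4, ← h3]
  ring

theorem resu_of_coprime {A B C g0 g1 g2 g3 : K} (hA : A ≠ 0)
    (h : IsCoprime (Polynomial.C A * X ^ 2 + Polynomial.C B * X + Polynomial.C C)
      (Polynomial.C g3 * X ^ 3 + Polynomial.C g2 * X ^ 2 + Polynomial.C g1 * X +
        Polynomial.C g0)) : resu A B C g0 g1 g2 g3 ≠ 0 := by
  intro hres
  set R1 := red1 A B C g1 g2 g3 with hR1
  set R0 := red0 A B C g0 g2 g3 with hR0
  set f0 : K[X] := Polynomial.C A * X ^ 2 + Polynomial.C B * X + Polynomial.C C with hf0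
  set f1 : K[X] := Polynomial.C g3 * X ^ 3 + Polynomial.C g2 * X ^ 2 + Polynomial.C g1 * X +
        Polynomial.C g0 with hf1
  set q : K[X] := Polynomial.C A * Polynomial.C g3 * X + (Polynomial.C A * Polynomial.C g2 -
    Polynomial.C B * Polynomial.C g3) with hq
  set e : K[X] := Polynomial.C A * Polynomial.C R0 - Polynomial.C B * Polynomial.C R1 -
    Polynomial.C A * Polynomial.C R1 * X with he
  have hdeg : f0.natDegree = 2 := natDegree_quadratic hA
  have h1 : Polynomial.C A ^ 2 * f1 = f0 * q + (Polynomial.C R1 * X + Polynomial.C R0) := by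
    rw [hf1, hf0, hq, hR1, hR0]
    simp only [red1, red0, C_add, C_sub, C_mul, C_pow]
    ring
  have h2 : (Polynomial.C R1 * X + Polynomial.C R0) * e + Polynomial.C R1 ^ 2 * f0 = 0 := by
    have h0 : A * R0 ^ 2 - B * R0 * R1 + C * R1 ^ 2 = 0 := hres
    have : (0 : K[X]) = Polynomial.C (A * R0 ^ 2 - B * R0 * R1 + C * R1 ^ 2) := by
      rw [h0, C_0]
    rw [this, hf0, he]
    simp only [C_add, C_sub, C_mul, C_pow]
    ring
  have hA2 : IsUnit (Polynomial.C A ^ 2 : K[X]) := (isUnit_C.mpr (isUnit_iff_ne_zero.mpr hA)).pow 2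
  have hr : IsCoprime f0 (Polynomial.C R1 * X + Polynomial.C R0) := by
    have h3 : IsCoprime f0 (Polynomial.C A ^ 2 * f1) :=
      (isCoprime_mul_unit_left_right hA2 f0 f1).mpr h
    rw [h1] at h3
    have h4 := (IsCoprime.add_mul_left_right_iff (x := f0)
      (y := Polynomial.C R1 * X + Polynomial.C R0) (z := q)).mp (by rwa [add_comm] at h3)
    exact h4
  have hdvd : f0 ∣ e := by
    refine hr.dvd_of_dvd_mul_left ⟨-Polynomial.C R1 ^ 2, ?_⟩
    linear_combination h2
  have hedeg : e.natDegree ≤ 1 := by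
    have : e = Polynomial.C (-(A * R1)) * X + Polynomial.C (A * R0 - B * R1) := by
      rw [he]; simp only [C_sub, C_mul, C_neg]; ring
    rw [this]
    exact natDegree_linear_le
  have he0 : e = 0 := by
    by_contra hne
    have := natDegree_le_of_dvd hdvd hne
    omega
  have c1 : e.coeff 1 = -(A * R1) := by
    have : e = Polynomial.C (-(A * R1)) * X + Polynomial.C (A * R0 - B * R1) := by
      rw [he]; simp only [C_sub, C_mul, C_neg]; ring
    rw [this]; simp
  have c0 : e.coeff 0 = A * R0 - B * R1 := by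
    have : e = Polynomial.C (-(A * R1)) * X + Polynomial.C (A * R0 - B * R1) := by
      rw [he]; simp only [C_sub, C_mul, C_neg]; ring
    rw [this]; simp
  rw [he0, coeff_zero] at c1 c0
  have hR1' : R1 = 0 := by
    have : A * R1 = 0 := by linear_combination c1
    exact (mul_eq_zero.mp this).resolve_left hA
  have hR0' : R0 = 0 := by
    rw [hR1', mul_zero, sub_zero] at c0
    exact (mul_eq_zero.mp c0.symm).resolve_left hA
  rw [hR1', hR0', C_0, zero_mul, add_zero, isCoprime_zero_right] at hr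
  have := natDegree_eq_zero_of_isUnit hr
  omega

end Pool.Agent.Work.PDCB
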