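import Mathlib
import Pool.Agent.Work.MP_b62148_ag.CB.Basic
import Pool.Agent.Work.MP_b62148_ag.CB.Alg
import Pool.Agent.Work.MP_b62148_ag.CB.Res

/-!
Moving a point of the base over which the conic has a point.
-/

namespace Pool.Agent.Work.PDCB

open MvPolynomial

section

variable {K : Type*} [Field K] {n m : ℕ}

/-- numerator of the residual parameter -/
noncomputable def numP (P : Polynomial (Polynomial K)) : Polynomial K :=
  -8 * P.coeff 0 * (8 * P.coeff 0 ^ 2 * P.coeff 3 - 4 * P.coeff 0 * P.coeff 1 * P.coeff 2 +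
    P.coeff 1 ^ 3)

/-- denominator of the residual parameter -/
noncomputable def denP (P : Polynomial (Polynomial K)) : Polynomial K :=
  64 * P.coeff 0 ^ 3 * P.coeff 4 - (4 * P.coeff 0 * P.coeff 2 - P.coeff 1 ^ 2) ^ 2

/-- derivative along a polynomial vector field -/
noncomputable def dv (p : MvPolynomial (Fin n) K) (V : Fin n → MvPolynomial (Fin n) K) :
    MvPolynomial (Fin n) K := ∑ i, V i * pderiv i p

theorem eval_dv (p : MvPolynomial (Fin n) K) (V : Fin n → MvPolynomial (Fin n) K)
    (x : Fin n → K) : eval x (dv p V) = dird p x (fun i => eval x (V i)) := by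
  simp [dv, dird, aeval_eq_eval]

/-- polynomial whose non vanishing means that `f_0` and `f_1` are coprime -/
noncomputable def rp (a b c : MvPolynomial (Fin n) K) (V W : Fin n → MvPolynomial (Fin n) K) :
    MvPolynomial (Fin n) K :=
  resu a b c (dv c V) (dv b V + dv c W) (dv a V + dv b W) (dv a W)

theorem eval_rp (a b c : MvPolynomial (Fin n) K) (V W : Fin n → MvPolynomial (Fin n) K)
    (x : Fin n → K) : eval x (rp a b c V W) =
      resu (eval x a) (eval x b) (eval x c) (dird c x fun i => eval x (V i))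
        ((dird b x fun i => eval x (V i)) + dird c x fun i => eval x (W i))
        ((dird a x fun i => eval x (V i)) + dird b x fun i => eval x (W i))
        (dird a x fun i => eval x (W i)) := by
  simp only [rp, resu, red0, red1, map_add, map_sub, map_mul, map_pow, eval_dv]

/-- the restriction at a point -/
noncomputable def Pt (a b c : MvPolynomial (Fin n) K) (V W : Fin n → MvPolynomial (Fin n) K)
    (x : Fin n → K) : Polynomial (Polynomial K) :=
  restr a b c x (fun i => eval x (V i)) (fun i => eval x (W i))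

theorem Pt_natDegree (a b c : MvPolynomial (Fin n) K) (V W : Fin n → MvPolynomial (Fin n) K)
    (hdeg : (restr a b c (X : Fin n → MvPolynomial (Fin n) K) V W).natDegree ≤ 4)
    (x : Fin n → K) : (Pt a b c V W x).natDegree ≤ 4 := by
  have h := restr_map (aeval x : MvPolynomial (Fin n) K →ₐ[K] K) a b c X V W
  have h2 : Pt a b c V W x = restr a b c (fun i => (aeval x : MvPolynomial (Fin n) K →ₐ[K] K) (X i))
      (fun i => (aeval x : MvPolynomial (Fin n) K →ₐ[K] K) (V i))
      (fun i => (aeval x : MvPolynomial (Fin n) K →ₐ[K] K) (W i)) := by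
    unfold Pt
    simp [aeval_eq_eval]
  rw [h2, ← h]
  exact Polynomial.natDegree_map_le.trans hdeg

theorem Pt_zero (a b c : MvPolynomial (Fin n) K) (V W : Fin n → MvPolynomial (Fin n) K)
    (x : Fin n → K) : (Pt a b c V W x).coeff 0 = Polynomial.C (eval x a) * Polynomial.X ^ 2 +
      Polynomial.C (eval x b) * Polynomial.X + Polynomial.C (eval x c) := by
  unfold Pt
  rw [restr_coeff_zero]
  simp [aeval_eq_eval]

theorem Pt_coprime {a b c : MvPolynomial (Fin n) K} {V W : Fin n → MvPolynomial (Fin n) K}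
    {x : Fin n → K} (h : eval x (rp a b c V W) ≠ 0) :
    IsCoprime ((Pt a b c V W x).coeff 0) ((Pt a b c V W x).coeff 1) := by
  rw [eval_rp] at h
  rw [Pt_zero]
  unfold Pt
  rw [restr_coeff_one]
  exact coprime_of_resu h

theorem rp_of_coprime {a b c : MvPolynomial (Fin n) K} {V W : Fin n → MvPolynomial (Fin n) K}
    {x : Fin n → K} (ha : eval x a ≠ 0)
    (h : IsCoprime ((Pt a b c V W x).coeff 0) ((Pt a b c V W x).coeff 1)) :
    eval x (rp a b c V W) ≠ 0 := by
  rw [eval_rp]
  rw [Pt_zero] at h
  unfold Pt at h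
  rw [restr_coeff_one] at h
  exact resu_of_coprime ha h

theorem f0_natDegree {a b c : MvPolynomial (Fin n) K} {V W : Fin n → MvPolynomial (Fin n) K}
    {x : Fin n → K} (ha : eval x a ≠ 0) : ((Pt a b c V W x).coeff 0).natDegree = 2 := by
  rw [Pt_zero]; exact Polynomial.natDegree_quadratic ha

theorem f0_not_unit {a b c : MvPolynomial (Fin n) K} {V W : Fin n → MvPolynomial (Fin n) K}
    {x : Fin n → K} (ha : eval x a ≠ 0) : ¬ IsUnit ((Pt a b c V W x).coeff 0) := by
  intro h
  have h1 := Polynomial.natDegree_eq_zero_of_isUnit h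
  rw [f0_natDegree ha] at h1
  omega

theorem cop_den {P : Polynomial (Polynomial K)} (h : IsCoprime (P.coeff 0) (P.coeff 1)) :
    IsCoprime (P.coeff 0) (denP P) := by
  have h1 : denP P = -(P.coeff 1 ^ 4) + P.coeff 0 * (64 * P.coeff 0 ^ 2 * P.coeff 4 -
    16 * P.coeff 0 * P.coeff 2 ^ 2 + 8 * P.coeff 2 * P.coeff 1 ^ 2) := by
    unfold denP; ring
  rw [h1]
  exact (h.pow_right.neg_right).add_mul_left_right _

theorem num_ne [CharZero K] {P : Polynomial (Polynomial K)} (h : IsCoprime (P.coeff 0) (P.coeff 1))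
    (h0 : P.coeff 0 ≠ 0) (hu : ¬ IsUnit (P.coeff 0)) : numP P ≠ 0 := by
  intro hn
  unfold numP at hn
  have h8 : (-8 : Polynomial K) ≠ 0 := by
    rw [neg_ne_zero]
    exact_mod_cast (show ((8 : ℕ) : Polynomial K) ≠ 0 from Nat.cast_ne_zero.mpr (by norm_num))
  rcases mul_eq_zero.mp hn with h1 | h1
  · rcases mul_eq_zero.mp h1 with h2 | h2
    · exact h8 h2
    · exact h0 h2
  · apply hu
    have h2 : P.coeff 0 ∣ P.coeff 1 ^ 3 := by
      refine ⟨-(8 * P.coeff 0 * P.coeff 3 - 4 * P.coeff 1 * P.coeff 2), ?_⟩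
      linear_combination h1
    have h3 : IsCoprime (P.coeff 0) (P.coeff 1 ^ 3) := h.pow_right
    exact h3.isUnit_of_dvd' (dvd_refl _) h2

/-- set of points of the base over which the conic is non degenerate and has a point -/
def Tset (a b c : MvPolynomial (Fin n) K) (V W : Fin m → Fin n → MvPolynomial (Fin n) K) :
    Set (Fin n → K) :=
  {x | eval x a ≠ 0 ∧ eval x b ^ 2 - 4 * eval x a * eval x c ≠ 0 ∧
    (∀ j, eval x (rp a b c (V j) (W j)) ≠ 0) ∧
    ∃ u z : K, z ^ 2 = eval x a * u ^ 2 + eval x b * u + eval x c}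

/-- the moved point -/
noncomputable def mv (a b c : MvPolynomial (Fin n) K) (V W : Fin n → MvPolynomial (Fin n) K)
    (x : Fin n → K) (u : K) : Fin n → K := fun i =>
  x i + ((numP (Pt a b c V W x)).eval u / (denP (Pt a b c V W x)).eval u) *
    (eval x (V i) + u * eval x (W i))

theorem mv_eval (a b c : MvPolynomial (Fin n) K) (V W : Fin n → MvPolynomial (Fin n) K)
    (x : Fin n → K) (u : K) (hM : (denP (Pt a b c V W x)).eval u ≠ 0)
    (p : MvPolynomial (Fin n) K) (D : ℕ)
    (hD : (along p x (fun i => eval x (V i)) (fun i => eval x (W i))).natDegree ≤ D) :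
    (clr (along p x (fun i => eval x (V i)) (fun i => eval x (W i)))
      (numP (Pt a b c V W x)) (denP (Pt a b c V W x)) D).eval u =
      ((denP (Pt a b c V W x)).eval u) ^ D * eval (mv a b c V W x u) p := by
  rw [clr_eval _ _ _ _ hD _ hM, along_eval]
  rfl

theorem clr_ne {a b c : MvPolynomial (Fin n) K} {V W : Fin n → MvPolynomial (Fin n) K}
    {x : Fin n → K} (ha : eval x a ≠ 0) (hr : eval x (rp a b c V W) ≠ 0)
    (p : MvPolynomial (Fin n) K) (hp : eval x p ≠ 0) (D : ℕ) :
    clr (along p x (fun i => eval x (V i)) (fun i => eval x (W i)))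
      (numP (Pt a b c V W x)) (denP (Pt a b c V W x)) D ≠ 0 := by
  intro h0
  have h1 := clr_zero (along p x (fun i => eval x (V i)) (fun i => eval x (W i)))
    (numP (Pt a b c V W x)) (denP (Pt a b c V W x)) D
  rw [h0, zero_sub, dvd_neg, along_coeff_zero] at h1
  have hc := Pt_coprime hr
  have hcd := cop_den hc
  have h2 : (Pt a b c V W x).coeff 0 ∣ numP (Pt a b c V W x) := by
    unfold numP
    exact Dvd.dvd.mul_right (Dvd.intro_left _ rfl) _
  have h3 := h2.trans h1
  have hunit : IsUnit (Polynomial.C (aeval x p) : Polynomial K) := by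
    rw [Polynomial.isUnit_C, isUnit_iff_ne_zero, aeval_eq_eval]
    exact hp
  have h4 : (Pt a b c V W x).coeff 0 ∣ denP (Pt a b c V W x) ^ D :=
    (hunit.dvd_mul_left).mp h3
  exact f0_not_unit ha ((hcd.pow_right (n := D)).isUnit_of_dvd' (dvd_refl _) h4)

theorem Pt_square [CharZero K] {a b c : MvPolynomial (Fin n) K} {V W : Fin n → MvPolynomial (Fin n) K}
    (hdeg : (restr a b c (X : Fin n → MvPolynomial (Fin n) K) V W).natDegree ≤ 4)
    {x : Fin n → K} {u z : K} (hz : z ^ 2 = eval x a * u ^ 2 + eval x b * u + eval x c)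
    (h0 : ((Pt a b c V W x).coeff 0).eval u ≠ 0)
    (hM : (denP (Pt a b c V W x)).eval u ≠ 0) :
    ∃ r : K, r ^ 2 = eval (mv a b c V W x u) a * u ^ 2 + eval (mv a b c V W x u) b * u +
      eval (mv a b c V W x u) c := by
  have h1 := restr_eval a b c x (fun i => eval x (V i)) (fun i => eval x (W i)) u
    ((numP (Pt a b c V W x)).eval u / (denP (Pt a b c V W x)).eval u)
  have h2 : ((Pt a b c V W x).map (Polynomial.evalRingHom u)).natDegree < 5 :=
    Nat.lt_succ_of_le (Polynomial.natDegree_map_le.trans (Pt_natDegree a b c V W hdeg x))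
  have h3 : ((Pt a b c V W x).map (Polynomial.evalRingHom u)).eval
      ((numP (Pt a b c V W x)).eval u / (denP (Pt a b c V W x)).eval u) =
      eval (mv a b c V W x u) a * u ^ 2 + eval (mv a b c V W x u) b * u +
      eval (mv a b c V W x u) c := h1
  rw [← h3, Polynomial.eval_eq_sum_range' h2]
  simp only [Finset.sum_range_succ, Finset.sum_range_zero, zero_add, Polynomial.coeff_map,
    Polynomial.coe_evalRingHom, pow_zero, mul_one, pow_one]
  have hf0 : z ^ 2 = ((Pt a b c V W x).coeff 0).eval u := by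
    rw [Pt_zero, hz]
    simp
  refine residual_square two_ne_zero hf0 h0 ?_ ?_
  · have : (denP (Pt a b c V W x)).eval u = 64 * ((Pt a b c V W x).coeff 0).eval u ^ 3 *
      ((Pt a b c V W x).coeff 4).eval u - (4 * ((Pt a b c V W x).coeff 0).eval u *
      ((Pt a b c V W x).coeff 2).eval u - ((Pt a b c V W x).coeff 1).eval u ^ 2) ^ 2 := by
      simp [denP]
    rwa [this] at hM
  · simp [denP, numP]

/-- the set `Tset` is stable under almost all moves -/
theorem move [CharZero K] {a b c : MvPolynomial (Fin n) K} {V W : Fin m → Fin n → MvPolynomial (Fin n) K}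
    (hdeg : ∀ j, (restr a b c (X : Fin n → MvPolynomial (Fin n) K) (V j) (W j)).natDegree ≤ 4)
    {x : Fin n → K} (hx : x ∈ Tset a b c V W) (j : Fin m) :
    ∃ Qp : Polynomial K, Qp ≠ 0 ∧ ∀ u z : K, z ^ 2 = eval x a * u ^ 2 + eval x b * u + eval x c →
      Qp.eval u ≠ 0 → (denP (Pt a b c (V j) (W j) x)).eval u ≠ 0 ∧
        mv a b c (V j) (W j) x u ∈ Tset a b c V W := by
  obtain ⟨ha, hd, hr, -⟩ := hx
  set P := Pt a b c (V j) (W j) x with hP
  have hc := Pt_coprime (hr j)
  have hcd := cop_den hc
  have hf0 : P.coeff 0 ≠ 0 := by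
    intro h0
    have := f0_natDegree (b := b) (c := c) (V := V j) (W := W j) ha
    rw [← hP, h0] at this
    simp at this
  have hden : denP P ≠ 0 := by
    intro h0
    rw [h0, isCoprime_zero_right] at hcd
    exact f0_not_unit ha hcd
  let al : MvPolynomial (Fin n) K → Polynomial (Polynomial K) := fun p =>
    along p x (fun i => eval x (V j i)) (fun i => eval x (W j i))
  let cl : MvPolynomial (Fin n) K → Polynomial K := fun p =>
    clr (al p) (numP P) (denP P) (al p).natDegree
  have hcl : ∀ p, eval x p ≠ 0 → cl p ≠ 0 := fun p hp => clr_ne ha (hr j) p hp _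
  have hcl' : ∀ p u, (denP P).eval u ≠ 0 → (cl p).eval u ≠ 0 →
      eval (mv a b c (V j) (W j) x u) p ≠ 0 := by
    intro p u hM h h0
    apply h
    have := mv_eval a b c (V j) (W j) x u hM p (al p).natDegree le_rfl
    rw [h0, mul_zero] at this
    exact this
  refine ⟨denP P * P.coeff 0 * cl a * cl (b ^ 2 - 4 * a * c) *
    ∏ i, cl (rp a b c (V i) (W i)), ?_, ?_⟩
  · refine mul_ne_zero (mul_ne_zero (mul_ne_zero (mul_ne_zero hden hf0) (hcl _ ha)) (hcl _ ?_))
      (Finset.prod_ne_zero_iff.mpr fun i _ => hcl _ (hr i))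
    simpa using hd
  · intro u z hz hQp
    simp only [Polynomial.eval_mul, Polynomial.eval_prod] at hQp
    have k5 := right_ne_zero_of_mul hQp
    have k4' := left_ne_zero_of_mul hQp
    have k4 := right_ne_zero_of_mul k4'
    have k3' := left_ne_zero_of_mul k4'
    have k3 := right_ne_zero_of_mul k3'
    have k2' := left_ne_zero_of_mul k3'
    have k2 := right_ne_zero_of_mul k2'
    have k1 := left_ne_zero_of_mul k2'
    refine ⟨k1, hcl' a u k1 k3, ?_, fun i => ?_, u, Pt_square (hdeg j) hz k2 k1⟩
    · have := hcl' _ u k1 k4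
      simpa using this
    · exact hcl' _ u k1 (Finset.prod_ne_zero_iff.mp k5 i (Finset.mem_univ _))

/-- derivatives of a polynomial vanishing on `Tset` vanish on `Tset` -/
theorem deriv_vanish [CharZero K] {a b c : MvPolynomial (Fin n) K}
    {V W : Fin m → Fin n → MvPolynomial (Fin n) K}
    (hdeg : ∀ j, (restr a b c (X : Fin n → MvPolynomial (Fin n) K) (V j) (W j)).natDegree ≤ 4)
    (F : MvPolynomial (Fin n) K) (hF : ∀ x ∈ Tset a b c V W, eval x F = 0)
    {x : Fin n → K} (hx : x ∈ Tset a b c V W) (j : Fin m) :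
    eval x (dv F (V j)) = 0 ∧ eval x (dv F (W j)) = 0 := by
  classical
  obtain ⟨Qp, hQp, hmove⟩ := move hdeg hx j
  have hFx := hF x hx
  obtain ⟨ha, hd, hr, u₀, z₀, h0⟩ := hx
  have hinf := conic_infinite hd h0
  set P := Pt a b c (V j) (W j) x with hP
  have hc := Pt_coprime (hr j)
  have hcd := cop_den hc
  set al := along F x (fun i => eval x (V j i)) (fun i => eval x (W j i)) with hal
  have hzero : clr al (numP P) (denP P) (al.natDegree + 1) = 0 := by
    apply Polynomial.eq_zero_of_infinite_isRoot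
    have hfin : {u : K | Qp.eval u = 0}.Finite := by
      refine Set.Finite.subset Qp.roots.toFinset.finite_toSet fun u hu => ?_
      simp only [Finset.mem_coe, Multiset.mem_toFinset, Polynomial.mem_roots', ne_eq, hQp,
        not_false_eq_true, true_and, Polynomial.IsRoot.def]
      exact hu
    refine (hinf.sdiff hfin).mono ?_
    rintro u ⟨⟨z, hz⟩, hu⟩
    obtain ⟨hM, hT⟩ := hmove u z hz hu
    show Polynomial.IsRoot _ u
    rw [Polynomial.IsRoot.def, mv_eval a b c (V j) (W j) x u hM F _ (Nat.le_succ _),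
      hF _ hT, mul_zero]
  have hf0 : P.coeff 0 ≠ 0 := by
    intro h0
    have := f0_natDegree (b := b) (c := c) (V := V j) (W := W j) ha
    rw [← hP, h0] at this
    simp at this
  have hal0 : al.coeff 0 = 0 := by
    rw [hal, along_coeff_zero, aeval_eq_eval]
    simp [hFx]
  have hdvd := clr_one al (numP P) (denP P) al.natDegree
    (num_ne hc hf0 (f0_not_unit ha)) hal0 hzero
  have h2 : P.coeff 0 ∣ numP P := by
    unfold numP
    exact Dvd.dvd.mul_right (Dvd.intro_left _ rfl) _
  have h3 : P.coeff 0 ∣ al.coeff 1 := by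
    have h4 := h2.trans hdvd
    exact (hcd.pow_right (n := al.natDegree)).dvd_of_dvd_mul_right h4
  have h5 : al.coeff 1 = Polynomial.C (eval x (dv F (W j))) * Polynomial.X +
      Polynomial.C (eval x (dv F (V j))) := by
    rw [hal, along_coeff_one, eval_dv, eval_dv]; ring
  have h6 : al.coeff 1 = 0 := by
    by_contra hne
    have h7 := Polynomial.natDegree_le_of_dvd h3 hne
    rw [hP, f0_natDegree ha, h5] at h7
    have h8 := Polynomial.natDegree_linear_le (a := eval x (dv F (W j)))
      (b := eval x (dv F (V j)))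
    omega
  rw [h5] at h6
  constructor
  · have := congrArg (fun q => Polynomial.coeff q 0) h6
    simpa using this
  · have := congrArg (fun q => Polynomial.coeff q 1) h6
    simpa using this

end

end Pool.Agent.Work.PDCB
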