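import Mathlib
import Pool.Agent.Work.MP_b62148_ag.CB.Move
import Pool.Agent.Work.MP_b62148_ag.Quintic.DensityQ

/-!
From stability under vector fields to density.
-/

namespace Pool.Agent.Work.PDCB

open MvPolynomial

section

variable {k L : Type*} [Field k] [Field L] [Algebra k L] {n : ℕ}

theorem dsum_apply {R : Type*} [CommRing R] {ι : Type*} (s : Finset ι)
    (D : ι → Derivation R (MvPolynomial (Fin n) R) (MvPolynomial (Fin n) R))
    (p : MvPolynomial (Fin n) R) : (∑ i ∈ s, D i) p = ∑ i ∈ s, D i p := by
  classical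
  induction s using Finset.induction_on with
  | empty => simp
  | insert a s ha ih => rw [Finset.sum_insert ha, Finset.sum_insert ha, Derivation.add_apply, ih]

/-- the derivation attached to a polynomial vector field -/
noncomputable def der (V : Fin n → MvPolynomial (Fin n) k) :
    Derivation k (MvPolynomial (Fin n) k) (MvPolynomial (Fin n) k) := mkDerivation k V

theorem der_apply (V : Fin n → MvPolynomial (Fin n) k) (p : MvPolynomial (Fin n) k) :
    der V p = dv p V := by
  classical
  let D : Derivation k (MvPolynomial (Fin n) k) (MvPolynomial (Fin n) k) :=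
    ∑ i, V i • pderiv i
  have h : der V = D := by
    apply MvPolynomial.derivation_ext
    intro i
    simp only [der, mkDerivation_X, D]
    rw [dsum_apply, Finset.sum_eq_single i]
    · simp
    · intro j _ hj
      simp [pderiv_X_of_ne (Ne.symm hj)]
    · simp
  rw [h]
  simp only [D]
  rw [dsum_apply]
  simp only [Derivation.smul_apply, smul_eq_mul, dv]

/-- extension of a derivation to a bigger field of constants -/
noncomputable def ext (L : Type*) [Field L] [Algebra k L]
    (D : Derivation k (MvPolynomial (Fin n) k) (MvPolynomial (Fin n) k)) :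
    Derivation L (MvPolynomial (Fin n) L) (MvPolynomial (Fin n) L) :=
  mkDerivation L fun i => map (algebraMap k L) (D (X i))

theorem ext_map (D : Derivation k (MvPolynomial (Fin n) k) (MvPolynomial (Fin n) k))
    (p : MvPolynomial (Fin n) k) :
    ext L D (map (algebraMap k L) p) = map (algebraMap k L) (D p) := by
  induction p using MvPolynomial.induction_on with
  | C r => simp [ext]
  | add p q hp hq => rw [map_add, map_add, map_add, map_add, hp, hq]
  | mul_X p i hp =>
    rw [map_mul, Derivation.leibniz, Derivation.leibniz, map_add, smul_eq_mul, smul_eq_mul,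
      smul_eq_mul, smul_eq_mul, map_mul, map_mul, hp, map_X]
    have : ext L D (X i) = map (algebraMap k L) (D (X i)) := by simp [ext]
    rw [this]

theorem ext_der (V : Fin n → MvPolynomial (Fin n) k) :
    ext L (der V) = der fun i => map (algebraMap k L) (V i) := by
  unfold ext der
  congr 1
  funext i
  simp

theorem ext_add (D E : Derivation k (MvPolynomial (Fin n) k) (MvPolynomial (Fin n) k)) :
    ext L (D + E) = ext L D + ext L E := by
  apply MvPolynomial.derivation_ext
  intro i
  simp [ext]

theorem ext_smul (c : k) (D : Derivation k (MvPolynomial (Fin n) k) (MvPolynomial (Fin n) k)) :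
    ext L (c • D) = (algebraMap k L c) • ext L D := by
  apply MvPolynomial.derivation_ext
  intro i
  rw [Derivation.smul_apply]
  simp only [ext, mkDerivation_X, Derivation.smul_apply]
  rw [MvPolynomial.smul_eq_C_mul, MvPolynomial.smul_eq_C_mul, map_mul, map_C]

theorem ext_lie (D E : Derivation k (MvPolynomial (Fin n) k) (MvPolynomial (Fin n) k)) :
    ext L ⁅D, E⁆ = ⁅ext L D, ext L E⁆ := by
  apply MvPolynomial.derivation_ext
  intro i
  have h : ∀ D : Derivation k (MvPolynomial (Fin n) k) (MvPolynomial (Fin n) k),
      ext L D (X i) = map (algebraMap k L) (D (X i)) := fun D => by simp [ext]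
  rw [h, Derivation.commutator_apply, Derivation.commutator_apply, h, h, map_sub, ext_map, ext_map]

/-- the derivations preserving an ideal form a Lie algebra -/
noncomputable def stab (I : Ideal (MvPolynomial (Fin n) L)) :
    LieSubalgebra k (Derivation k (MvPolynomial (Fin n) k) (MvPolynomial (Fin n) k)) where
  carrier := {D | ∀ F ∈ I, ext L D F ∈ I}
  zero_mem' := by
    intro F hF
    have : ext L (0 : Derivation k (MvPolynomial (Fin n) k) (MvPolynomial (Fin n) k)) = 0 := by
      apply MvPolynomial.derivation_ext
      intro i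
      simp [ext]
    rw [this]
    simp
  add_mem' := by
    intro D E hD hE F hF
    rw [ext_add, Derivation.add_apply]
    exact I.add_mem (hD F hF) (hE F hF)
  smul_mem' := by
    intro c D hD F hF
    rw [ext_smul, Derivation.smul_apply, MvPolynomial.smul_eq_C_mul]
    exact I.mul_mem_left _ (hD F hF)
  lie_mem' := by
    intro D E hD hE F hF
    show ext L ⁅D, E⁆ F ∈ I
    rw [ext_lie, Derivation.commutator_apply]
    exact I.sub_mem (hD _ (hE F hF)) (hE _ (hD F hF))

/-- polynomials vanishing on a set -/
def vanI (T : Set (Fin n → L)) : Ideal (MvPolynomial (Fin n) L) where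
  carrier := {F | ∀ x ∈ T, eval x F = 0}
  zero_mem' := fun x _ => by simp
  add_mem' := fun {F G} hF hG x hx => by rw [map_add, hF x hx, hG x hx, add_zero]
  smul_mem' := fun c F hF x hx => by rw [smul_eq_mul, map_mul, hF x hx, mul_zero]

/-- a set stable under all partial derivatives is dense -/
theorem eq_zero_of_pderiv [CharZero L] (T : Set (Fin n → L)) (x₀ : Fin n → L) (hx₀ : x₀ ∈ T)
    (h : ∀ F : MvPolynomial (Fin n) L, (∀ x ∈ T, eval x F = 0) →
      ∀ i, ∀ x ∈ T, eval x (pderiv i F) = 0)
    (F : MvPolynomial (Fin n) L) (hF : ∀ x ∈ T, eval x F = 0) : F = 0 := by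
  have key : ∀ d : ℕ, ∀ F : MvPolynomial (Fin n) L, F.totalDegree ≤ d →
      (∀ x ∈ T, eval x F = 0) → F = 0 := by
    intro d
    induction d with
    | zero =>
      intro F hd hF
      have h1 : F = C (coeff 0 F) := totalDegree_eq_zero_iff_eq_C.mp (Nat.le_zero.mp hd)
      have h2 := hF x₀ hx₀
      rw [h1, eval_C] at h2
      rw [h1, h2, C_0]
    | succ d ih =>
      intro F hd hF
      have h0 : ∀ i, pderiv i F = 0 := fun i =>
        ih _ (PD5.DQ.totalDegree_pderiv_le F i d hd) (h F hF i)
      have h1 := PD5.DQ.eq_C_of_pderiv F h0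
      have h2 := hF x₀ hx₀
      rw [h1, eval_C] at h2
      rw [h1, h2, C_0]
  exact key _ F le_rfl hF

/-- Main criterion: a set `T` whose ideal is stable under vector fields generating the tangent
space at one point of `T` is dense. -/
theorem dense_of_lie [CharZero L] (S : Set (Derivation k (MvPolynomial (Fin n) k)
    (MvPolynomial (Fin n) k))) (x₀ : Fin n → k)
    (hspan : ∀ y : Fin n → k, ∃ D ∈ LieSubalgebra.lieSpan k (Derivation k (MvPolynomial (Fin n) k)
      (MvPolynomial (Fin n) k)) S, ∀ i, eval x₀ (D (X i)) = y i)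
    (T : Set (Fin n → L)) (hx₀ : (fun i => algebraMap k L (x₀ i)) ∈ T)
    (hT : ∀ D ∈ S, ∀ F : MvPolynomial (Fin n) L, (∀ x ∈ T, eval x F = 0) →
      ∀ x ∈ T, eval x (ext L D F) = 0)
    (F : MvPolynomial (Fin n) L) (hF : ∀ x ∈ T, eval x F = 0) : F = 0 := by
  classical
  have hle : LieSubalgebra.lieSpan k (Derivation k (MvPolynomial (Fin n) k)
      (MvPolynomial (Fin n) k)) S ≤ stab (k := k) (vanI T) := by
    rw [LieSubalgebra.lieSpan_le]
    intro D hD F hF
    exact hT D hD F hF
  choose D hDmem hD using fun j : Fin n => hspan (Pi.single j 1)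
  -- the matrix `D_i (X_l)`
  let M : Matrix (Fin n) (Fin n) (MvPolynomial (Fin n) k) := Matrix.of fun i l => D i (X l)
  let δ : MvPolynomial (Fin n) L := map (algebraMap k L) M.det
  have hδ : eval (fun i => algebraMap k L (x₀ i)) δ ≠ 0 := by
    have h1 : (eval x₀ : MvPolynomial (Fin n) k →+* k) M.det = 1 := by
      rw [RingHom.map_det]
      have : (eval x₀ : MvPolynomial (Fin n) k →+* k).mapMatrix M = 1 := by
        ext i l
        simp only [RingHom.mapMatrix_apply, Matrix.map_apply, M, Matrix.of_apply, hD,
          Matrix.one_apply, Pi.single_apply, eq_comm]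
      rw [this, Matrix.det_one]
    have h2 : eval (fun i => algebraMap k L (x₀ i)) δ = algebraMap k L (eval x₀ M.det) := by
      simp only [δ]
      rw [eval_map]
      exact (eval₂_comp_left (algebraMap k L) (RingHom.id k) x₀ M.det).symm
    rw [h2, h1, map_one]
    exact one_ne_zero
  -- `δ ∂_l` preserves the ideal of `T`
  have hpd : ∀ l : Fin n, ∀ F : MvPolynomial (Fin n) L, (∀ x ∈ T, eval x F = 0) →
      ∀ x ∈ T, eval x (δ * pderiv l F) = 0 := by
    intro l F hF x hx
    have hid : δ • (pderiv l : Derivation L (MvPolynomial (Fin n) L) (MvPolynomial (Fin n) L)) =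
        ∑ i, (map (algebraMap k L) (M.adjugate l i)) • ext L (D i) := by
      apply MvPolynomial.derivation_ext
      intro q
      rw [dsum_apply]
      simp only [Derivation.smul_apply, smul_eq_mul]
      have h1 : ∀ i, ext L (D i) (X q) = map (algebraMap k L) (M i q) := fun i => by
        simp [ext, M]
      simp only [h1, ← map_mul]
      rw [← map_sum]
      have h2 : ∑ i, M.adjugate l i * M i q = (M.adjugate * M) l q := rfl
      rw [h2, Matrix.adjugate_mul, Matrix.smul_apply, Matrix.one_apply, pderiv_X]
      by_cases hlq : l = q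
      · subst hlq; simp [δ]
      · simp [hlq, δ, Ne.symm hlq]
    have h3 : δ * pderiv l F = (δ • (pderiv l : Derivation L (MvPolynomial (Fin n) L)
      (MvPolynomial (Fin n) L))) F := rfl
    rw [h3, hid, dsum_apply, map_sum]
    refine Finset.sum_eq_zero fun i _ => ?_
    rw [Derivation.smul_apply, smul_eq_mul, map_mul]
    have h4 : ext L (D i) F ∈ vanI T := hle (hDmem i) F hF
    rw [h4 x hx, mul_zero]
  -- restrict to `δ ≠ 0`
  refine eq_zero_of_pderiv {x | x ∈ T ∧ eval x δ ≠ 0} (fun i => algebraMap k L (x₀ i)) ⟨hx₀, hδ⟩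
    ?_ F (fun x hx => hF x hx.1)
  intro F hF l x hx
  have h1 : ∀ y ∈ T, eval y (δ * F) = 0 := by
    intro y hy
    rw [map_mul]
    by_cases h0 : eval y δ = 0
    · rw [h0, zero_mul]
    · rw [hF y ⟨hy, h0⟩, mul_zero]
  have h2 := hpd l (δ * F) h1 x hx.1
  rw [Derivation.leibniz, smul_eq_mul, smul_eq_mul, map_mul, map_add, map_mul, map_mul,
    hF x hx, zero_mul, add_zero] at h2
  have h3 := (mul_eq_zero.mp h2).resolve_left hx.2
  exact (mul_eq_zero.mp h3).resolve_left hx.2

end

end Pool.Agent.Work.PDCB
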