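import Mathlib
import Pool.Agent.Work.MP_b62148_ag.CB.Lie

/-!
Density of rational points on conic bundles `z ^ 2 = a(x) u ^ 2 + b(x) u + c(x)` from one point.
-/

namespace Pool.Agent.Work.PDCB

open MvPolynomial

section

variable {L : Type*} [Field L] {n : ℕ}

/-- `z ^ 2 - (a u ^ 2 + b u + c)` in `L[x][u][z]` -/
noncomputable def conicEq (a b c : MvPolynomial (Fin n) L) :
    Polynomial (Polynomial (MvPolynomial (Fin n) L)) :=
  Polynomial.X ^ 2 - Polynomial.C (Polynomial.C a * Polynomial.X ^ 2 +
    Polynomial.C b * Polynomial.X + Polynomial.C c)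

/-- value of `G` in `L[x][u][z]` at a point -/
noncomputable def evalPt (G : Polynomial (Polynomial (MvPolynomial (Fin n) L)))
    (x : Fin n → L) (u z : L) : L :=
  ((G.map (Polynomial.mapRingHom (eval x))).eval (Polynomial.C z)).eval u

theorem conicEq_monic (a b c : MvPolynomial (Fin n) L) : (conicEq a b c).Monic :=
  Polynomial.monic_X_pow_sub_C _ (by norm_num)

theorem conicEq_natDegree (a b c : MvPolynomial (Fin n) L) : (conicEq a b c).natDegree = 2 :=
  Polynomial.natDegree_X_pow_sub_C

theorem evalPt_add (G H : Polynomial (Polynomial (MvPolynomial (Fin n) L)))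
    (x : Fin n → L) (u z : L) : evalPt (G + H) x u z = evalPt G x u z + evalPt H x u z := by
  simp [evalPt]

theorem evalPt_mul (G H : Polynomial (Polynomial (MvPolynomial (Fin n) L)))
    (x : Fin n → L) (u z : L) : evalPt (G * H) x u z = evalPt G x u z * evalPt H x u z := by
  simp [evalPt]

theorem evalPt_C (r : Polynomial (MvPolynomial (Fin n) L)) (x : Fin n → L) (u z : L) :
    evalPt (Polynomial.C r) x u z = (r.map (eval x)).eval u := by
  simp [evalPt]

theorem evalPt_X (x : Fin n → L) (u z : L) :
    evalPt (Polynomial.X : Polynomial (Polynomial (MvPolynomial (Fin n) L))) x u z = z := by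
  simp [evalPt]

theorem evalPt_conicEq (a b c : MvPolynomial (Fin n) L) (x : Fin n → L) (u z : L) :
    evalPt (conicEq a b c) x u z = z ^ 2 - (eval x a * u ^ 2 + eval x b * u + eval x c) := by
  simp [evalPt, conicEq]

/-- If the conic has a point over a dense set, the points are dense. -/
theorem dvd_of_dense [CharZero L] (a b c : MvPolynomial (Fin n) L) (T : Set (Fin n → L))
    (hT : ∀ F : MvPolynomial (Fin n) L, (∀ x ∈ T, eval x F = 0) → F = 0)
    (hTc : ∀ x ∈ T, eval x a ≠ 0 ∧ eval x b ^ 2 - 4 * eval x a * eval x c ≠ 0 ∧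
      ∃ u z : L, z ^ 2 = eval x a * u ^ 2 + eval x b * u + eval x c)
    (G : Polynomial (Polynomial (MvPolynomial (Fin n) L)))
    (hG : ∀ (x : Fin n → L) (u z : L), z ^ 2 = eval x a * u ^ 2 + eval x b * u + eval x c →
      evalPt G x u z = 0) : conicEq a b c ∣ G := by
  classical
  set r := G %ₘ conicEq a b c with hr
  have hGr : r + conicEq a b c * (G /ₘ conicEq a b c) = G :=
    Polynomial.modByMonic_add_div G (conicEq a b c)
  have hdeg : r.natDegree ≤ 1 := by
    have h1 := Polynomial.natDegree_modByMonic_lt G (conicEq_monic a b c) (by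
      intro h
      have := conicEq_natDegree a b c
      rw [h, Polynomial.natDegree_one] at this
      omega)
    rw [conicEq_natDegree, ← hr] at h1
    omega
  have hrx : r = Polynomial.C (r.coeff 1) * Polynomial.X + Polynomial.C (r.coeff 0) :=
    Polynomial.eq_X_add_C_of_natDegree_le_one hdeg
  -- values of `r`
  have hval : ∀ (x : Fin n → L) (u z : L), z ^ 2 = eval x a * u ^ 2 + eval x b * u + eval x c →
      ((r.coeff 1).map (eval x)).eval u * z + ((r.coeff 0).map (eval x)).eval u = 0 := by
    intro x u z hz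
    have h1 := hG x u z hz
    rw [← hGr, evalPt_add, evalPt_mul, evalPt_conicEq, hz, sub_self, zero_mul, add_zero, hrx,
      evalPt_add, evalPt_mul, evalPt_C, evalPt_C, evalPt_X] at h1
    simpa using h1
  have hinf : ∀ x ∈ T, {u : L | ∃ z, z ≠ 0 ∧ z ^ 2 = eval x a * u ^ 2 + eval x b * u +
      eval x c}.Infinite := by
    intro x hx
    obtain ⟨ha, hd, u₀, z₀, h0⟩ := hTc x hx
    have h1 := conic_infinite hd h0
    have hq : (Polynomial.C (eval x a) * Polynomial.X ^ 2 + Polynomial.C (eval x b) *
        Polynomial.X + Polynomial.C (eval x c) : Polynomial L) ≠ 0 := by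
      intro h
      have := Polynomial.natDegree_quadratic (b := eval x b) (c := eval x c) ha
      rw [h, Polynomial.natDegree_zero] at this
      omega
    have h2 : {u : L | eval x a * u ^ 2 + eval x b * u + eval x c = 0}.Finite := by
      refine Set.Finite.subset (Polynomial.C (eval x a) * Polynomial.X ^ 2 +
        Polynomial.C (eval x b) * Polynomial.X +
        Polynomial.C (eval x c) : Polynomial L).roots.toFinset.finite_toSet fun u hu => ?_
      simp only [Finset.mem_coe, Multiset.mem_toFinset, Polynomial.mem_roots', ne_eq, hq,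
        not_false_eq_true, true_and, Polynomial.IsRoot.def]
      simpa using hu
    refine (h1.sdiff h2).mono ?_
    rintro u ⟨⟨z, hz⟩, hu⟩
    refine ⟨z, ?_, hz⟩
    rintro rfl
    apply hu
    show eval x a * u ^ 2 + eval x b * u + eval x c = 0
    rw [← hz]; simp
  have hz : ∀ i : ℕ, i = 0 ∨ i = 1 → r.coeff i = 0 := by
    intro i hi
    ext1 j
    rw [Polynomial.coeff_zero]
    apply hT
    intro x hx
    have h3 : (r.coeff i).map (eval x) = 0 := by
      apply Polynomial.eq_zero_of_infinite_isRoot
      refine (hinf x hx).mono ?_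
      rintro u ⟨z, hz0, hz⟩
      have e1 := hval x u z hz
      have e2 := hval x u (-z) (by rw [neg_sq]; exact hz)
      have e3 : ((r.coeff 0).map (eval x)).eval u = 0 := by
        have : (2 : L) * ((r.coeff 0).map (eval x)).eval u = 0 := by linear_combination e1 + e2
        exact (mul_eq_zero.mp this).resolve_left two_ne_zero
      have e4 : ((r.coeff 1).map (eval x)).eval u = 0 := by
        rw [e3, add_zero] at e1
        exact (mul_eq_zero.mp e1).resolve_right hz0
      show Polynomial.IsRoot _ u
      rcases hi with rfl | rfl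
      · exact e3
      · exact e4
    have h4 := congrArg (fun q => Polynomial.coeff q j) h3
    simpa using h4
  rw [← hGr, hrx, hz 0 (Or.inl rfl), hz 1 (Or.inr rfl)]
  simp

end

section

variable {k : Type*} [Field k] {n m : ℕ}

theorem restr_base {L : Type*} [Field L] [Algebra k L] {S : Type*} [CommRing S] [Algebra k S]
    [Algebra L S] [IsScalarTower k L S] (a b c : MvPolynomial (Fin n) k) (x v w : Fin n → S) :
    restr (map (algebraMap k L) a) (map (algebraMap k L) b) (map (algebraMap k L) c) x v w =
      restr a b c x v w := by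
  unfold restr along
  rw [aeval_map_algebraMap, aeval_map_algebraMap, aeval_map_algebraMap]

theorem main [CharZero k] (a b c : MvPolynomial (Fin n) k) (V W : Fin m → Fin n → MvPolynomial (Fin n) k)
    (hdeg : ∀ j, (restr a b c (X : Fin n → MvPolynomial (Fin n) k) (V j) (W j)).natDegree ≤ 4)
    (x₀ : Fin n → k) (ha : eval x₀ a ≠ 0) (hd : eval x₀ b ^ 2 - 4 * eval x₀ a * eval x₀ c ≠ 0)
    (hcop : ∀ j, IsCoprime
      ((restr a b c x₀ (fun i => eval x₀ (V j i)) (fun i => eval x₀ (W j i))).coeff 0)
      ((restr a b c x₀ (fun i => eval x₀ (V j i)) (fun i => eval x₀ (W j i))).coeff 1))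
    (hspan : ∀ y : Fin n → k, ∃ D ∈ LieSubalgebra.lieSpan k (Derivation k (MvPolynomial (Fin n) k)
      (MvPolynomial (Fin n) k)) (Set.range (fun j => mkDerivation k (V j)) ∪
        Set.range (fun j => mkDerivation k (W j))), ∀ i, eval x₀ (D (X i)) = y i)
    {L : Type*} [Field L] [Algebra k L] (u₀ z₀ : L)
    (h₀ : z₀ ^ 2 = algebraMap k L (eval x₀ a) * u₀ ^ 2 + algebraMap k L (eval x₀ b) * u₀ +
      algebraMap k L (eval x₀ c))
    (G : Polynomial (Polynomial (MvPolynomial (Fin n) L)))
    (hG : ∀ (x : Fin n → L) (u z : L), z ^ 2 = aeval x a * u ^ 2 + aeval x b * u + aeval x c →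
      evalPt G x u z = 0) :
    conicEq (map (algebraMap k L) a) (map (algebraMap k L) b) (map (algebraMap k L) c) ∣ G := by
  classical
  have : CharZero L := charZero_of_injective_algebraMap (algebraMap k L).injective
  set aL := map (algebraMap k L) a with haL
  set bL := map (algebraMap k L) b with hbL
  set cL := map (algebraMap k L) c with hcL
  let VL : Fin m → Fin n → MvPolynomial (Fin n) L := fun j i => map (algebraMap k L) (V j i)
  let WL : Fin m → Fin n → MvPolynomial (Fin n) L := fun j i => map (algebraMap k L) (W j i)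
  let x₁ : Fin n → L := fun i => algebraMap k L (x₀ i)
  have hev : ∀ p : MvPolynomial (Fin n) k, eval x₁ (map (algebraMap k L) p) =
      algebraMap k L (eval x₀ p) := by
    intro p
    rw [eval_map]
    exact (eval₂_comp_left (algebraMap k L) (RingHom.id k) x₀ p).symm
  have hae : ∀ (x : Fin n → L) (p : MvPolynomial (Fin n) k),
      eval x (map (algebraMap k L) p) = aeval x p := by
    intro x p
    rw [eval_map, aeval_def]
  have hinj : Function.Injective (algebraMap k L) := (algebraMap k L).injective
  have hdegL : ∀ j, (restr aL bL cL (X : Fin n → MvPolynomial (Fin n) L) (VL j)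
      (WL j)).natDegree ≤ 4 := by
    intro j
    rw [haL, hbL, hcL, restr_base]
    have h := restr_map (mapAlgHom (Algebra.ofId k L) : MvPolynomial (Fin n) k →ₐ[k]
      MvPolynomial (Fin n) L) a b c X (V j) (W j)
    have h2 : restr a b c (X : Fin n → MvPolynomial (Fin n) L) (VL j) (WL j) =
      restr a b c (fun i => (mapAlgHom (Algebra.ofId k L) : MvPolynomial (Fin n) k →ₐ[k]
      MvPolynomial (Fin n) L) (X i)) (fun i => (mapAlgHom (Algebra.ofId k L) :
      MvPolynomial (Fin n) k →ₐ[k] MvPolynomial (Fin n) L) (V j i))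
      (fun i => (mapAlgHom (Algebra.ofId k L) : MvPolynomial (Fin n) k →ₐ[k]
      MvPolynomial (Fin n) L) (W j i)) := by
      congr 1
      · funext i; simp
    rw [h2, ← h]
    exact Polynomial.natDegree_map_le.trans (hdeg j)
  have hcopL : ∀ j, IsCoprime ((Pt aL bL cL (VL j) (WL j) x₁).coeff 0)
      ((Pt aL bL cL (VL j) (WL j) x₁).coeff 1) := by
    intro j
    have h := restr_map (Algebra.ofId k L) a b c x₀ (fun i => eval x₀ (V j i))
      (fun i => eval x₀ (W j i))
    have h2 : Pt aL bL cL (VL j) (WL j) x₁ = restr a b c (fun i => Algebra.ofId k L (x₀ i))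
        (fun i => Algebra.ofId k L (eval x₀ (V j i)))
        (fun i => Algebra.ofId k L (eval x₀ (W j i))) := by
      unfold Pt
      rw [haL, hbL, hcL, restr_base]
      have e1 : (fun i => eval x₁ (VL j i)) = fun i => Algebra.ofId k L (eval x₀ (V j i)) := by
        funext i
        exact hev _
      have e2 : (fun i => eval x₁ (WL j i)) = fun i => Algebra.ofId k L (eval x₀ (W j i)) := by
        funext i
        exact hev _
      rw [e1, e2]
      rfl
    rw [h2, ← h, Polynomial.coeff_map, Polynomial.coeff_map]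
    exact (hcop j).map _
  have haL' : eval x₁ aL ≠ 0 := by
    rw [haL, hev]
    exact fun h => ha (hinj (by rw [h, map_zero]))
  have hx₁ : x₁ ∈ Tset aL bL cL VL WL := by
    refine ⟨haL', ?_, fun j => rp_of_coprime haL' (hcopL j), u₀, z₀, ?_⟩
    · rw [haL, hbL, hcL, hev, hev, hev]
      intro h
      apply hd
      apply hinj
      rw [map_zero, ← h]
      simp only [map_sub, map_mul, map_pow, map_ofNat]
    · rw [haL, hbL, hcL, hev, hev, hev]
      exact h₀
  have hdense : ∀ F : MvPolynomial (Fin n) L, (∀ x ∈ Tset aL bL cL VL WL, eval x F = 0) →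
      F = 0 := by
    intro F hF
    refine dense_of_lie _ x₀ hspan (Tset aL bL cL VL WL) hx₁ ?_ F hF
    rintro D (⟨j, rfl⟩ | ⟨j, rfl⟩) F hF x hx
    · show eval x (ext L (der (V j)) F) = 0
      rw [ext_der, der_apply]
      exact (deriv_vanish hdegL F hF hx j).1
    · show eval x (ext L (der (W j)) F) = 0
      rw [ext_der, der_apply]
      exact (deriv_vanish hdegL F hF hx j).2
  refine dvd_of_dense aL bL cL (Tset aL bL cL VL WL) hdense
    (fun x hx => ⟨hx.1, hx.2.1, hx.2.2.2⟩) G ?_
  intro x u z hz
  apply hG
  rw [← hae, ← hae, ← hae]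
  exact hz

end

end Pool.Agent.Work.PDCB
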